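import Mathlib
import Pool.Agent.Lib_helper43.LA.Defs2

/-!
# Real powers of sums of orthogonal positive semidefinite matrices, powers of a projection
-/

set_option autoImplicit false

open scoped Kronecker ComplexOrder
open Polynomial

namespace Pool.Agent.Lib_helper41.LA

open Matrix Pool.Agent.Lib_helper98.Renyi

variable {n m : Type*} [Fintype n] [DecidableEq n] [Fintype m] [DecidableEq m]

theorem pow_add_orth {X Y : Matrix n n ℂ} (h : X * Y = 0) (h' : Y * X = 0) (k : ℕ) :
    (X + Y) ^ (k + 1) = X ^ (k + 1) + Y ^ (k + 1) := by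
  induction k with
  | zero => simp
  | succ k ih =>
    have e1 : X ^ (k + 1) * Y = 0 := by rw [pow_succ, Matrix.mul_assoc, h, Matrix.mul_zero]
    have e2 : Y ^ (k + 1) * X = 0 := by rw [pow_succ, Matrix.mul_assoc, h', Matrix.mul_zero]
    rw [pow_succ, ih, Matrix.add_mul, Matrix.mul_add, Matrix.mul_add, e1, e2, add_zero, zero_add,
      ← pow_succ, ← pow_succ]

theorem aeval_add_orth {X Y : Matrix n n ℂ} (h : X * Y = 0) (h' : Y * X = 0) (q : ℝ[X])
    (h0 : q.eval 0 = 0) : aeval (X + Y) q = aeval X q + aeval Y q := by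
  rw [aeval_eq_sum_range, aeval_eq_sum_range, aeval_eq_sum_range, ← Finset.sum_add_distrib]
  refine Finset.sum_congr rfl fun k _ => ?_
  rcases k with _ | k
  · have : q.coeff 0 = 0 := by rw [coeff_zero_eq_eval_zero, h0]
    rw [this]
    simp
  · rw [pow_add_orth h h', smul_add]

theorem orth_symm {X Y : Matrix n n ℂ} (hX : X.IsHermitian) (hY : Y.IsHermitian)
    (h : X * Y = 0) : Y * X = 0 := by
  have := congrArg conjTranspose h
  rwa [conjTranspose_mul, hX.eq, hY.eq, conjTranspose_zero] at this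

theorem mpow_add_orth {X Y : Matrix n n ℂ} (hX : X.PosSemidef) (hY : Y.PosSemidef)
    (h : X * Y = 0) (s : ℝ) : mpow (X + Y) s = mpow X s + mpow Y s := by
  obtain ⟨q, hq, hq0⟩ := exists_poly_spectra (Finset.univ : Finset (Fin 3)) ![X, Y, X + Y] {0}
    (supPow s)
  have h0 : q.eval 0 = 0 := by
    rw [hq0 0 (Finset.mem_singleton_self _), supPow_zero_right]
  unfold mpow
  rw [cfc_eq_aeval hX.1 _ q (hq 0 (Finset.mem_univ _)),
    cfc_eq_aeval hY.1 _ q (hq 1 (Finset.mem_univ _)),
    cfc_eq_aeval (hX.add hY).1 _ q (hq 2 (Finset.mem_univ _)),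
    aeval_add_orth h (orth_symm hX.1 hY.1 h) q h0]

theorem trPow_add_orth {X Y : Matrix n n ℂ} (hX : X.PosSemidef) (hY : Y.PosSemidef)
    (h : X * Y = 0) (s : ℝ) : trPow s (X + Y) = trPow s X + trPow s Y := by
  rw [trPow, mpow_add_orth hX hY h, trace_add, Complex.add_re, trPow, trPow]

theorem mpow_mul_zero {X Y : Matrix n n ℂ} (hX : X.PosSemidef) (h : X * Y = 0) (s : ℝ) :
    mpow X s * Y = 0 := by
  have e : s = (s - 1) + 1 := by ring
  rw [e, mpow_add hX, mpow_one hX, Matrix.mul_assoc, h, Matrix.mul_zero]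

theorem mul_mpow_zero {X Y : Matrix n n ℂ} (hX : X.PosSemidef) (h : Y * X = 0) (s : ℝ) :
    Y * mpow X s = 0 := by
  have e : s = 1 + (s - 1) := by ring
  rw [e, mpow_add hX, mpow_one hX, ← Matrix.mul_assoc, h, Matrix.zero_mul]

/-- powers of a projection -/
theorem mpow_proj {F : Matrix n n ℂ} (hF : F.PosSemidef) (h : F * F = F) (s : ℝ) :
    mpow F s = F := by
  obtain ⟨U, c, hU, hU', hc, e⟩ := exists_spectral_nonneg hF
  have hd : diagonal (fun i => (c i : ℂ)) * diagonal (fun i => (c i : ℂ)) =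
      (diagonal (fun i => (c i : ℂ)) : Matrix n n ℂ) := by
    have h1 : Uᴴ * F * U = diagonal (fun i => (c i : ℂ)) := by
      rw [e]
      calc Uᴴ * (U * diagonal (fun i => (c i : ℂ)) * Uᴴ) * U
          = (Uᴴ * U) * diagonal (fun i => (c i : ℂ)) * (Uᴴ * U) := by
            simp only [Matrix.mul_assoc]
        _ = _ := by rw [hU, Matrix.one_mul, Matrix.mul_one]
    rw [← h1]
    calc Uᴴ * F * U * (Uᴴ * F * U) = Uᴴ * F * (U * Uᴴ) * F * U := by
          simp only [Matrix.mul_assoc]
      _ = Uᴴ * (F * F) * U := by rw [hU', Matrix.mul_one]; simp only [Matrix.mul_assoc]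
      _ = _ := by rw [h]
  have hc2 : ∀ i, supPow s (c i) = c i := by
    intro i
    rw [diagonal_mul_diagonal] at hd
    have h2 := congrFun (congrFun hd i) i
    rw [diagonal_apply_eq, diagonal_apply_eq] at h2
    have h3 : c i * c i = c i := by exact_mod_cast h2
    rcases eq_or_ne (c i) 0 with h0 | h0
    · rw [h0, supPow_zero_right]
    · have h4 : c i = 1 := mul_right_cancel₀ h0 (by rw [h3, one_mul])
      rw [h4, supPow_of_ne one_ne_zero, Real.one_rpow]
  rw [e, mpow_conj_diagonal _ U hU]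
  simp only [hc2]

theorem mpow_smul_proj {F : Matrix n n ℂ} (hF : F.PosSemidef) (h : F * F = F) {t : ℝ}
    (ht : 0 ≤ t) (s : ℝ) : mpow ((t : ℂ) • F) s = ((supPow s t : ℝ) : ℂ) • F := by
  rcases eq_or_lt_of_le ht with h0 | h0
  · rw [← h0, supPow_zero_right, Complex.ofReal_zero, zero_smul]
    have := mpow_conj_diagonal s (1 : Matrix n n ℂ) (by simp) (fun _ => 0)
    simpa [supPow_zero_right] using this
  · rw [mpow_smul hF h0, mpow_proj hF h, supPow_of_ne h0.ne']

theorem smul_psd {X : Matrix n n ℂ} (hX : X.PosSemidef) {t : ℝ} (ht : 0 ≤ t) :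
    ((t : ℂ) • X).PosSemidef := hX.smul (by exact_mod_cast ht)

section vec

variable {f : n → ℂ}

theorem FF_psd (f : n → ℂ) : (vecMulVec f (star f)).PosSemidef := posSemidef_vecMulVec_self_star f

theorem FF_proj (hf : star f ⬝ᵥ f = 1) :
    vecMulVec f (star f) * vecMulVec f (star f) = vecMulVec f (star f) := by
  rw [vecMulVec_mul_vecMulVec, hf, one_smul]

theorem FF_trace (hf : star f ⬝ᵥ f = 1) : trace (vecMulVec f (star f)) = 1 := by
  rw [trace_vecMulVec, dotProduct_comm, hf]

theorem mul_FF {M : Matrix n n ℂ} {t : ℂ} (h : M *ᵥ f = t • f) :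
    M * vecMulVec f (star f) = t • vecMulVec f (star f) := by
  rw [mul_vecMulVec, h, smul_vecMulVec]

theorem FF_mul {M : Matrix n n ℂ} (hM : M.IsHermitian) {t : ℝ} (h : M *ᵥ f = (t : ℂ) • f) :
    vecMulVec f (star f) * M = (t : ℂ) • vecMulVec f (star f) := by
  have := congrArg conjTranspose (mul_FF h)
  rwa [conjTranspose_mul, conjTranspose_smul, hM.eq, (FF_psd f).1.eq, Complex.star_def,
    Complex.conj_ofReal] at this

end vec

end Pool.Agent.Lib_helper41.LA
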