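import Mathlib
import Pool.Agent.Lib_helper41.LA.Add

/-!
# Block PEEL of LargeAlpha: a common eigenvector of `ρ` and `C` with eigenvalue `±1` of `C` is
removed without changing the defect
-/

set_option autoImplicit false
set_option linter.unusedSectionVars false

open scoped Kronecker ComplexOrder

namespace Pool.Agent.Lib_helper41.LA

open Matrix Pool.Agent.Lib_helper98.Renyi Pool.Agent.Lib_helper43.LA

variable {n m : Type*} [Fintype n] [DecidableEq n] [Fintype m] [DecidableEq m]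

/-- the pair `(A, D)` of `(ρ, C)` is admissible -/
theorem adm_of_Pr {ρ C : Matrix n n ℂ} (h : Pr ρ C) {p : ℝ} (hp : 0 < p) :
    Adm (AA p ρ) (DD p ρ C) := by
  have e : mpow ρ (1 / (2 * p)) * mpow ρ 0 * mpow ρ (1 / (2 * p)) = AA p ρ := by
    rw [← mpow_add h.psd, ← mpow_add h.psd, AA]
    congr 1
    field_simp
    ring
  refine ⟨mpow_posSemidef h.psd _, ?_, ?_, ?_⟩
  · have := isHermitian_mul_mul_conjTranspose (mpow ρ (1 / (2 * p))) h.herm
    rwa [(mpow_posSemidef h.psd _).1.eq] at this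
  · have := sandwich_posSemidef h.psd h.add (1 / (2 * p))
    rwa [Matrix.mul_add, Matrix.add_mul, e] at this
  · have := sandwich_posSemidef h.psd h.sub (1 / (2 * p))
    rwa [Matrix.mul_sub, Matrix.sub_mul, e] at this

section peel

variable {ρ C : Matrix n n ℂ} {f : n → ℂ} {η s : ℝ}

/-- compression by `1 - F` -/
theorem compress {F X : Matrix n n ℂ} {t : ℝ} (hF : F.PosSemidef) (hFF : F * F = F)
    (hX : X.PosSemidef) (h1 : F * X = (t : ℂ) • F) (h2 : X * F = (t : ℂ) • F) :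
    (X - (t : ℂ) • F).PosSemidef := by
  have h := hX.mul_mul_conjTranspose_same (1 - F)
  have e : (1 - F) * X * (1 - F)ᴴ = X - (t : ℂ) • F := by
    rw [conjTranspose_sub, conjTranspose_one, hF.1.eq, Matrix.sub_mul, Matrix.one_mul, h1,
      Matrix.mul_sub, Matrix.mul_one, Matrix.sub_mul, h2, Matrix.smul_mul, hFF, sub_self,
      sub_zero]
  rwa [e] at h

theorem ρ₁_psd (h : Pr ρ C) (hf : star f ⬝ᵥ f = 1) (h1 : ρ *ᵥ f = (η : ℂ) • f) :
    (ρ - (η : ℂ) • vecMulVec f (star f)).PosSemidef :=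
  compress (FF_psd f) (FF_proj hf) h.psd (FF_mul h.psd.1 h1) (mul_FF h1)

theorem ρ₁_mul (hf : star f ⬝ᵥ f = 1) (h1 : ρ *ᵥ f = (η : ℂ) • f) :
    (ρ - (η : ℂ) • vecMulVec f (star f)) * vecMulVec f (star f) = 0 := by
  rw [Matrix.sub_mul, mul_FF h1, Matrix.smul_mul, FF_proj hf, sub_self]

theorem mpow_split (h : Pr ρ C) (hf : star f ⬝ᵥ f = 1) (hη : 0 < η)
    (h1 : ρ *ᵥ f = (η : ℂ) • f) (t : ℝ) :
    mpow ρ t = mpow (ρ - (η : ℂ) • vecMulVec f (star f)) t +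
      ((η ^ t : ℝ) : ℂ) • vecMulVec f (star f) := by
  have e := mpow_add_orth (ρ₁_psd h hf h1) (smul_psd (FF_psd f) hη.le)
    (by rw [Matrix.mul_smul, ρ₁_mul hf h1, smul_zero]) t
  rw [mpow_smul_proj (FF_psd f) (FF_proj hf) hη.le, supPow_of_ne hη.ne'] at e
  rw [← e]
  congr 1
  abel

theorem Pr₁ (h : Pr ρ C) (hf : star f ⬝ᵥ f = 1) (hη : 0 < η)
    (h1 : ρ *ᵥ f = (η : ℂ) • f) (h2 : C *ᵥ f = (s : ℂ) • f) :
    Pr (ρ - (η : ℂ) • vecMulVec f (star f)) (C - (s : ℂ) • vecMulVec f (star f)) := by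
  have P := ρ₁_psd h hf h1
  have Z := ρ₁_mul hf h1
  have hF := FF_psd f
  have hFF := FF_proj hf
  have S := mpow_split h hf hη h1 0
  rw [Real.rpow_zero, Complex.ofReal_one, one_smul] at S
  have cF := mul_FF h2
  have Fc := FF_mul h.herm h2
  have Z0 := mpow_mul_zero P Z 0
  have Z0' := mul_mpow_zero P (orth_symm P.1 hF.1 Z) 0
  set F := vecMulVec f (star f) with hFd
  set R := mpow (ρ - (η : ℂ) • F) 0 with hR
  have eR : R = mpow ρ 0 - F := by rw [S]; abel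
  have pF : mpow ρ 0 * F = F := by rw [S, Matrix.add_mul, Z0, hFF, zero_add]
  have Fp : F * mpow ρ 0 = F := by rw [S, Matrix.mul_add, Z0', hFF, zero_add]
  have hs : ((s : ℂ) • F).IsHermitian := by
    rw [Matrix.IsHermitian, conjTranspose_smul, hF.1.eq, Complex.star_def, Complex.conj_ofReal]
  refine ⟨P, h.herm.sub hs, ?_, ?_, ?_, ?_⟩
  · rw [← hR, eR, Matrix.sub_mul, Matrix.mul_sub, Matrix.mul_sub, h.left, Matrix.mul_smul, pF, Fc,
      Matrix.mul_smul, hFF, sub_self, sub_zero]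
  · rw [← hR, eR, Matrix.mul_sub, Matrix.sub_mul, Matrix.sub_mul, h.right, Matrix.smul_mul, Fp, cF,
      Matrix.smul_mul, hFF, sub_self, sub_zero]
  · have := compress (t := 1 + s) hF hFF h.add
      (by rw [Matrix.mul_add, Fp, Fc]; push_cast; rw [add_smul, one_smul])
      (by rw [Matrix.add_mul, pF, cF]; push_cast; rw [add_smul, one_smul])
    have e : R + (C - (s : ℂ) • F) = mpow ρ 0 + C - ((1 + s : ℝ) : ℂ) • F := by
      rw [eR]; push_cast; rw [add_smul, one_smul]; abel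
    rwa [e]
  · have := compress (t := 1 - s) hF hFF h.sub
      (by rw [Matrix.mul_sub, Fp, Fc]; push_cast; rw [sub_smul, one_smul])
      (by rw [Matrix.sub_mul, pF, cF]; push_cast; rw [sub_smul, one_smul])
    have e : R - (C - (s : ℂ) • F) = mpow ρ 0 - C - ((1 - s : ℝ) : ℂ) • F := by
      rw [eR]; push_cast; rw [sub_smul, one_smul]; abel
    rwa [e]

theorem rank_lt (h : Pr ρ C) (hf : star f ⬝ᵥ f = 1) (hη : 0 < η)
    (h1 : ρ *ᵥ f = (η : ℂ) • f) : (ρ - (η : ℂ) • vecMulVec f (star f)).rank < ρ.rank := by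
  have P := ρ₁_psd h hf h1
  have Z := orth_symm P.1 (FF_psd f).1 (ρ₁_mul hf h1)
  set F := vecMulVec f (star f) with hF
  have eF : F *ᵥ f = f := by
    rw [hF, vecMulVec_mulVec, hf]
    simp
  have hη' : (η : ℂ) ≠ 0 := by exact_mod_cast hη.ne'
  have f0 : f ≠ 0 := by
    rintro rfl
    simp at hf
  unfold Matrix.rank
  refine Submodule.finrank_lt_finrank_of_lt (SetLike.lt_iff_le_and_exists.2 ⟨?_, f, ?_, ?_⟩)
  · rintro _ ⟨x, rfl⟩
    refine ⟨x - F *ᵥ x, ?_⟩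
    simp only [mulVecLin_apply, mulVec_sub, sub_mulVec, mulVec_mulVec]
    rw [mul_FF h1]
  · refine ⟨(η : ℂ)⁻¹ • f, ?_⟩
    rw [mulVecLin_apply, mulVec_smul, h1, smul_smul, inv_mul_cancel₀ hη', one_smul]
  · rintro ⟨x, hx⟩
    rw [mulVecLin_apply] at hx
    have := congrArg (fun y => F *ᵥ y) hx
    simp only [mulVec_mulVec] at this
    rw [Z, zero_mulVec, eF] at this
    exact f0 this.symm

/-- `A` splits -/
theorem AA_split (h : Pr ρ C) (hf : star f ⬝ᵥ f = 1) (hη : 0 < η)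
    (h1 : ρ *ᵥ f = (η : ℂ) • f) (p : ℝ) :
    AA p ρ = AA p (ρ - (η : ℂ) • vecMulVec f (star f)) +
      ((η ^ (1 / p) : ℝ) : ℂ) • vecMulVec f (star f) :=
  mpow_split h hf hη h1 _

/-- `D` splits -/
theorem DD_split (h : Pr ρ C) (hf : star f ⬝ᵥ f = 1) (hη : 0 < η)
    (h1 : ρ *ᵥ f = (η : ℂ) • f) (h2 : C *ᵥ f = (s : ℂ) • f) {p : ℝ} (hp : 0 < p) :
    DD p ρ C = DD p (ρ - (η : ℂ) • vecMulVec f (star f)) (C - (s : ℂ) • vecMulVec f (star f)) +
      ((s * η ^ (1 / p) : ℝ) : ℂ) • vecMulVec f (star f) := by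
  have P := ρ₁_psd h hf h1
  have Z := ρ₁_mul hf h1
  have hF := FF_psd f
  have hFF := FF_proj hf
  have cF := mul_FF h2
  have Fc := FF_mul h.herm h2
  have S := mpow_split h hf hη h1 (1 / (2 * p))
  have Z1 := mpow_mul_zero P Z (1 / (2 * p))
  have Z2 := mul_mpow_zero P (orth_symm P.1 hF.1 Z) (1 / (2 * p))
  set F := vecMulVec f (star f) with hFd
  have eb : ((η ^ (1 / (2 * p)) : ℝ) : ℂ) * ((η ^ (1 / (2 * p)) : ℝ) : ℂ) =
      ((η ^ (1 / p) : ℝ) : ℂ) := by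
    rw [← Complex.ofReal_mul, ← Real.rpow_add hη]
    congr 2
    field_simp
    ring
  unfold DD
  rw [S]
  set H := mpow (ρ - (η : ℂ) • F) (1 / (2 * p)) with hH
  set b : ℂ := ((η ^ (1 / (2 * p)) : ℝ) : ℂ) with hb
  have t1 : F * C * H = 0 := by rw [Fc, Matrix.smul_mul, Z2, smul_zero]
  have t2 : H * C * F = 0 := by rw [Matrix.mul_assoc, cF, Matrix.mul_smul, Z1, smul_zero]
  have t3 : F * C * F = (s : ℂ) • F := by rw [Fc, Matrix.smul_mul, hFF]
  have t4 : H * F * H = 0 := by rw [Z1, Matrix.zero_mul]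
  have lhs : (H + b • F) * C * (H + b • F) = H * C * H + (b * b * (s : ℂ)) • F := by
    rw [Matrix.add_mul, Matrix.add_mul, Matrix.mul_add, Matrix.mul_add, Matrix.smul_mul,
      Matrix.smul_mul, Matrix.smul_mul, Matrix.mul_smul, Matrix.mul_smul, t1, t2, t3, smul_zero,
      add_zero, zero_add, smul_smul, smul_smul, mul_assoc]
  have rhs : H * (C - (s : ℂ) • F) * H = H * C * H := by
    rw [Matrix.mul_sub, Matrix.sub_mul, Matrix.mul_smul, Matrix.smul_mul, t4, smul_zero, sub_zero]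
  rw [lhs, rhs, eb]
  congr 2
  push_cast
  ring

end peel

/-- `Gfun` of a sum with a scalar on the line of `f` -/
theorem Gfun_split {p : ℝ} (hp : 1 ≤ p) {F A D : Matrix n n ℂ} (hF : F.PosSemidef)
    (hFF : F * F = F) (hFt : trace F = 1) (h : Adm A D) (hA : A * F = 0) (hD : D * F = 0) {a s : ℝ}
    (ha : 0 < a) (hs : s = 1 ∨ s = -1) :
    Gfun p (A + (a : ℂ) • F) (D + ((s * a : ℝ) : ℂ) • F) =
      Gfun p A D + (2 ^ (p - 1) - 1) * a ^ p := by
  have hp0 : p ≠ 0 := by linarith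
  have key : ∀ (X : Matrix n n ℂ), X.PosSemidef → X * F = 0 → ∀ t : ℝ, 0 ≤ t →
      trPow p (X + (t : ℂ) • F) = trPow p X + t ^ p := by
    intro X hX hXF t ht
    rw [trPow_add_orth hX (smul_psd hF ht) (by rw [Matrix.mul_smul, hXF, smul_zero]),
      trPow, trPow, mpow_smul_proj hF hFF ht, trace_smul, hFt, supPow_of_pos_exp hp0]
    simp
  have e1 : A + (a : ℂ) • F + (D + ((s * a : ℝ) : ℂ) • F) =
      (A + D) + (((1 + s) * a : ℝ) : ℂ) • F := by
    rw [show (((1 + s) * a : ℝ) : ℂ) = (a : ℂ) + ((s * a : ℝ) : ℂ) by push_cast; ring, add_smul]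
    abel
  have e2 : A + (a : ℂ) • F - (D + ((s * a : ℝ) : ℂ) • F) =
      (A - D) + (((1 - s) * a : ℝ) : ℂ) • F := by
    rw [show (((1 - s) * a : ℝ) : ℂ) = (a : ℂ) - ((s * a : ℝ) : ℂ) by push_cast; ring, sub_smul]
    abel
  have z1 : (A + D) * F = 0 := by rw [Matrix.add_mul, hA, hD, add_zero]
  have z2 : (A - D) * F = 0 := by rw [Matrix.sub_mul, hA, hD, sub_zero]
  have h2 : (2 : ℝ) ^ p = 2 * 2 ^ (p - 1) := by
    rw [Real.rpow_sub_one (by norm_num)]; ring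
  unfold Gfun
  rcases hs with rfl | rfl
  · rw [e1, e2, key _ h.add z1 _ (by nlinarith), key _ h.sub z2 _ (by nlinarith),
      key _ h.psd hA _ ha.le, show (1 + (1 : ℝ)) * a = 2 * a by ring,
      show (1 - (1 : ℝ)) * a = 0 by ring, Real.zero_rpow hp0,
      Real.mul_rpow (by norm_num) ha.le, h2]
    ring
  · rw [e1, e2, key _ h.add z1 _ (by nlinarith), key _ h.sub z2 _ (by nlinarith),
      key _ h.psd hA _ ha.le, show (1 - (-1 : ℝ)) * a = 2 * a by ring,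
      show (1 + (-1 : ℝ)) * a = 0 by ring, Real.zero_rpow hp0,
      Real.mul_rpow (by norm_num) ha.le, h2]
    ring

/-- the same for the tensor pair -/
theorem Gfun_kron_split {p : ℝ} (hp : 1 ≤ p) {F A D : Matrix n n ℂ} {A' D' : Matrix m m ℂ}
    (hF : F.PosSemidef) (hFF : F * F = F) (hFt : trace F = 1) (h : Adm A D) (h' : Adm A' D')
    (hA : A * F = 0) (hD : D * F = 0) {a s : ℝ} (ha : 0 < a) (hs : s = 1 ∨ s = -1) :
    Gfun p ((A + (a : ℂ) • F) ⊗ₖ A') ((D + ((s * a : ℝ) : ℂ) • F) ⊗ₖ D') =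
      Gfun p (A ⊗ₖ A') (D ⊗ₖ D') + a ^ p * Gfun p A' D' := by
  have hk := h.kron h'
  have key : ∀ (Y : Matrix (n × m) (n × m) ℂ) (W : Matrix m m ℂ), Y.PosSemidef →
      W.PosSemidef → (∀ Q : Matrix m m ℂ, Y * (F ⊗ₖ Q) = 0) →
      trPow p (Y + (a : ℂ) • (F ⊗ₖ W)) = trPow p Y + a ^ p * trPow p W := by
    intro Y W hY hW hYF
    have hFW := hF.kronecker hW
    rw [trPow_add_orth hY (smul_psd hFW ha.le) (by rw [Matrix.mul_smul, hYF, smul_zero]),
      trPow_smul hFW ha, trPow, trPow, trPow, mpow_kronecker hF hW, mpow_proj hF hFF,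
      trace_kronecker, hFt, one_mul]
  have z : ∀ (X : Matrix n n ℂ) (X' Q : Matrix m m ℂ), X * F = 0 →
      (X ⊗ₖ X') * (F ⊗ₖ Q) = 0 := by
    intro X X' Q hX
    rw [← mul_kronecker_mul, hX, zero_kronecker]
  have y1 : ∀ Q : Matrix m m ℂ, (A ⊗ₖ A' + D ⊗ₖ D') * (F ⊗ₖ Q) = 0 := by
    intro Q
    rw [Matrix.add_mul, z _ _ _ hA, z _ _ _ hD, add_zero]
  have y2 : ∀ Q : Matrix m m ℂ, (A ⊗ₖ A' - D ⊗ₖ D') * (F ⊗ₖ Q) = 0 := by
    intro Q
    rw [Matrix.sub_mul, z _ _ _ hA, z _ _ _ hD, sub_zero]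
  have ring1 : ∀ ε : ℂ, (A + (a : ℂ) • F) ⊗ₖ A' + ε • ((D + ((s * a : ℝ) : ℂ) • F) ⊗ₖ D') =
      (A ⊗ₖ A' + ε • (D ⊗ₖ D')) + (a : ℂ) • (F ⊗ₖ (A' + (ε * (s : ℂ)) • D')) := by
    intro ε
    ext ⟨i, j⟩ ⟨k, l⟩
    simp [kronecker_apply]
    ring
  have e1 : (A + (a : ℂ) • F) ⊗ₖ A' + (D + ((s * a : ℝ) : ℂ) • F) ⊗ₖ D' =
      (A ⊗ₖ A' + D ⊗ₖ D') + (a : ℂ) • (F ⊗ₖ (A' + (s : ℂ) • D')) := by
    have := ring1 1
    simpa using this
  have e2 : (A + (a : ℂ) • F) ⊗ₖ A' - (D + ((s * a : ℝ) : ℂ) • F) ⊗ₖ D' =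
      (A ⊗ₖ A' - D ⊗ₖ D') + (a : ℂ) • (F ⊗ₖ (A' - (s : ℂ) • D')) := by
    have := ring1 (-1)
    simpa [sub_eq_add_neg] using this
  have e3 : (A + (a : ℂ) • F) ⊗ₖ A' = A ⊗ₖ A' + (a : ℂ) • (F ⊗ₖ A') := by
    rw [add_kronecker, smul_kronecker]
  unfold Gfun
  rcases hs with rfl | rfl
  · rw [e1, e2, e3]
    rw [show A' + ((1 : ℝ) : ℂ) • D' = A' + D' by simp,
      show A' - ((1 : ℝ) : ℂ) • D' = A' - D' by simp,
      key _ _ hk.add h'.add y1, key _ _ hk.sub h'.sub y2,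
      key _ _ hk.psd h'.psd (fun Q => z _ _ _ hA)]
    ring
  · rw [e1, e2, e3]
    rw [show A' + ((-1 : ℝ) : ℂ) • D' = A' - D' by simp [sub_eq_add_neg],
      show A' - ((-1 : ℝ) : ℂ) • D' = A' + D' by simp,
      key _ _ hk.add h'.sub y1, key _ _ hk.sub h'.add y2,
      key _ _ hk.psd h'.psd (fun Q => z _ _ _ hA)]
    ring

/-- **Block PEEL.** -/
theorem peel : PeelTarget := by
  intro n m _ _ _ _ ρ C ρ' C' h h' f η s hf hη hs h1 h2
  have P₁ := Pr₁ h hf hη h1 h2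
  refine ⟨_, _, P₁, rank_lt h hf hη h1, fun p hp => ?_⟩
  have hp0 : 0 < p := by linarith
  have P := ρ₁_psd h hf h1
  have Z := ρ₁_mul hf h1
  have hAF : AA p (ρ - (η : ℂ) • vecMulVec f (star f)) * vecMulVec f (star f) = 0 :=
    mpow_mul_zero P Z _
  have hDF : DD p (ρ - (η : ℂ) • vecMulVec f (star f)) (C - (s : ℂ) • vecMulVec f (star f)) *
      vecMulVec f (star f) = 0 := by
    rw [DD, Matrix.mul_assoc, mpow_mul_zero P Z, Matrix.mul_zero]
  have ha : 0 < η ^ (1 / p) := Real.rpow_pos_of_pos hη _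
  have g1 := Gfun_split hp (FF_psd f) (FF_proj hf) (FF_trace hf) (adm_of_Pr P₁ hp0) hAF hDF ha hs
  have g2 := Gfun_kron_split hp (FF_psd f) (FF_proj hf) (FF_trace hf) (adm_of_Pr P₁ hp0)
    (adm_of_Pr h' hp0) hAF hDF ha hs
  unfold Lam
  rw [AA_split h hf hη h1 p, DD_split h hf hη h1 h2 hp0, g1, g2]
  ring

end Pool.Agent.Lib_helper41.LA
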